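import Mathlib
import Pool.Agent.H16.IZN

set_option autoImplicit false

namespace Pool.Agent.Results.MP_be65b5_al.All

open Pool.Agent.H16.IZ

theorem result : ¬ Neutral SL ∧ Neutral ZM ∧ ¬ Neutral BA :=
  ⟨nSL, neutral, nBA⟩

end Pool.Agent.Results.MP_be65b5_al.All
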